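import Mathlib

/-!
# Buchberger's algorithm over `ℤ` with S-polynomials is not correct

For the set `F = {3, 8}` of constant polynomials the critical pair is `(1, -4)`, so the S-polynomial
is `5` (or `-5`, for the other order of the two elements).  It can be reduced by `5 → 5 - 8 = -3 →
-3 + 3 = 0`.  So there is a normal form algorithm for which Algorithm A' stops at once with the
output `F`.  This is not a Gröbner basis: `9` can be reduced to `9 - 3 * 3 = 0` and to `9 - 8 = 1`,
and both are irreducible.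
-/

set_option autoImplicit false

namespace Pool.Agent.Results.MP_698df0_al.SPolynomialVariantFails

open MvPolynomial Relation

/-- The ring `ℤ[x_1, …, x_n]`. -/
abbrev R (n : ℕ) : Type := MvPolynomial (Fin n) ℤ

/-- The position of an integer in the order `0 ≺ -1 ≺ 1 ≺ -2 ≺ 2 ≺ -3 ≺ 3 ≺ ⋯`. -/
def rk (a : ℤ) : ℕ := if a < 0 then 2 * a.natAbs - 1 else 2 * a.natAbs

/-- The order `0 ≺ -1 ≺ 1 ≺ -2 ≺ 2 ≺ -3 ≺ 3 ≺ ⋯` of the integers. -/
def Prec (a b : ℤ) : Prop := rk a < rk b

instance (a b : ℤ) : Decidable (Prec a b) := inferInstanceAs (Decidable (rk a < rk b))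

section

variable {n : ℕ} (m : MonomialOrder (Fin n))

/-- The reduction relation `g →_F h`. -/
def Red (F : Finset (R n)) (g h : R n) : Prop :=
  ∃ f ∈ F, ∃ (b : ℤ) (u : Fin n →₀ ℕ),
    g.coeff (u + m.degree f) ≠ 0 ∧
    Prec (g.coeff (u + m.degree f) - b * m.leadingCoeff f) (g.coeff (u + m.degree f)) ∧
    h = g - monomial u b * f

/-- `g` is irreducible modulo `F`. -/
def Irred (F : Finset (R n)) (g : R n) : Prop := ∀ h, ¬ Red m F g h

/-- A normal form algorithm sends `(F, g)` to an irreducible polynomial to which `g` can be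
reduced. -/
def IsNormalFormAlgorithm (S : Finset (R n) → R n → R n) : Prop :=
  ∀ F g, ReflTransGen (Red m F) g (S F g) ∧ Irred m F (S F g)

/-- `F` is a Gröbner basis: exactly one irreducible polynomial is reachable from every `g`. -/
def IsGroebner (F : Finset (R n)) : Prop :=
  ∀ g, ∃! h, ReflTransGen (Red m F) g h ∧ Irred m F h

end

/-- The multiplier `M(a, c)`. -/
def M (a c : ℤ) : ℤ :=
  if _h : 0 < a * c ∧ Prec (a - c) a then M (a - c) c + 1
  else if _h' : a * c < 0 ∧ Prec (a + c) a then M (a + c) c - 1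
  else 0
termination_by rk a
decreasing_by
  · exact _h.2
  · exact _h'.2

/-- The least element, in the order `≺`, that is reducible modulo `c`. -/
def L (c : ℤ) : ℤ := if Even c then |c| / 2 else -((|c| + 1) / 2)

/-- The least common reducible `LCR(c₁, c₂)`: the larger one of `L(c₁)` and `L(c₂)`. -/
def LCR (c₁ c₂ : ℤ) : ℤ := if Prec (L c₁) (L c₂) then L c₂ else L c₁

section

variable {n : ℕ} (m : MonomialOrder (Fin n))

/-- The polynomial `a U - M(a, LC(f)) u f` with `U = lcm(LP(f₁), LP(f₂))`, `u = U / LP(f)` and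
`a = LCR(LC(f₁), LC(f₂))`.  The critical pair of `f₁, f₂` consists of these polynomials for `f = f₁`
and `f = f₂`. -/
noncomputable def crit (f₁ f₂ f : R n) : R n :=
  monomial (m.degree f₁ ⊔ m.degree f₂) (LCR (m.leadingCoeff f₁) (m.leadingCoeff f₂)) -
    monomial ((m.degree f₁ ⊔ m.degree f₂) - m.degree f)
      (M (LCR (m.leadingCoeff f₁) (m.leadingCoeff f₂)) (m.leadingCoeff f)) * f

/-- The S-polynomial `p₁ - p₂` of `f₁, f₂`. -/
noncomputable def spoly (f₁ f₂ : R n) : R n := crit m f₁ f₂ f₁ - crit m f₁ f₂ f₂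

open Classical in
/-- One step of Algorithm A' from the state `st = (G, B)`: an unordered pair `{f₁, f₂}` is chosen
and removed from `B`, and `h' = S(G, p₁ - p₂)` is formed.  If `h' ≠ 0`, all pairs `{g, h'}` with
`g ∈ G` are added to `B` and `h'` is added to `G`. -/
def Step (S : Finset (R n) → R n → R n) (st st' : Finset (R n) × Finset (Sym2 (R n))) : Prop :=
  ∃ f₁ f₂, s(f₁, f₂) ∈ st.2 ∧
    ((S st.1 (spoly m f₁ f₂) = 0 ∧ st' = (st.1, st.2.erase s(f₁, f₂))) ∨
     (S st.1 (spoly m f₁ f₂) ≠ 0 ∧
      st' = (insert (S st.1 (spoly m f₁ f₂)) st.1,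
        st.2.erase s(f₁, f₂) ∪ st.1.image fun g => s(g, S st.1 (spoly m f₁ f₂)))))

open Classical in
/-- The initial state: `G = F`, and `B` consists of all pairs of different elements of `F`. -/
noncomputable def init (F : Finset (R n)) : Finset (R n) × Finset (Sym2 (R n)) :=
  (F, F.sym2.filter fun p => ¬ p.IsDiag)

/-- `G` is an output of Algorithm A' for the input `F` and the normal form algorithm `S`, for some
rule for choosing the pairs. -/
def Output (S : Finset (R n) → R n → R n) (F G : Finset (R n)) : Prop :=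
  ReflTransGen (Step m S) (init F) (G, ∅)

/-! ### Existence of normal forms -/

lemma prec_wf : WellFounded Prec := InvImage.wf rk Nat.lt_wfRel.wf

lemma red_wf (F : Finset (R n)) : WellFounded (Function.swap (Red m F)) := by
  have hwf : WellFounded (Finsupp.Lex (fun d j : Fin n →₀ ℕ => m.toSyn j < m.toSyn d) Prec) := by
    have : Std.Trichotomous (fun d j : Fin n →₀ ℕ => m.toSyn j < m.toSyn d) := by
      constructor
      intro a b h1 h2
      have h3 : m.toSyn a = m.toSyn b := le_antisymm (not_lt.1 h1) (not_lt.1 h2)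
      exact m.toSyn.injective h3
    refine Finsupp.Lex.wellFounded' ?_ prec_wf ?_
    · intro a h
      simp [Prec, rk] at h
    · exact InvImage.wf m.toSyn (IsWellFounded.wf (r := ((· < ·) : m.syn → m.syn → Prop)))
  refine Subrelation.wf (r := InvImage
    (Finsupp.Lex (fun d j : Fin n →₀ ℕ => m.toSyn j < m.toSyn d) Prec)
    (fun g : R n => (Finsupp.onFinset g.support (fun d => g.coeff d) (by
      intro d hd; exact MvPolynomial.mem_support_iff.2 hd) : (Fin n →₀ ℕ) →₀ ℤ))) ?_
    (InvImage.wf _ hwf)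
  intro h g hred
  obtain ⟨f, hf, b, u, h1, h2, rfl⟩ := hred
  refine ⟨u + m.degree f, ?_, ?_⟩
  · intro d hd
    simp only [Finsupp.onFinset_apply, MvPolynomial.coeff_sub, MvPolynomial.coeff_monomial_mul']
    split_ifs with hud
    · have : coeff (d - u) f = 0 := by
        apply m.coeff_eq_zero_of_lt
        have h3 : d = u + (d - u) := by rw [add_comm]; exact (tsub_add_cancel_of_le hud).symm
        rw [h3, map_add, map_add] at hd
        exact lt_of_add_lt_add_left hd
      rw [this]
      ring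
    · ring
  · simp only [Finsupp.onFinset_apply, MvPolynomial.coeff_sub, MvPolynomial.coeff_monomial_mul']
    rw [if_pos le_self_add, add_tsub_cancel_left]
    exact h2

lemma exists_normal_form (F : Finset (R n)) (g : R n) :
    ∃ h, ReflTransGen (Red m F) g h ∧ Irred m F h := by
  induction g using (red_wf m F).induction with
  | _ g ih =>
    by_cases hg : Irred m F g
    · exact ⟨g, ReflTransGen.refl, hg⟩
    · unfold Irred at hg
      push Not at hg
      obtain ⟨h, hh⟩ := hg
      obtain ⟨k, hk1, hk2⟩ := ih h hh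
      exact ⟨k, ReflTransGen.head hh hk1, hk2⟩

/-! ### The example -/

open Classical in
/-- The set `{3, 8}` of constant polynomials. -/
noncomputable def F₀ (n : ℕ) : Finset (R n) := {C 3, C 8}

lemma red_C {c : ℤ} (hc : (C c : R n) ∈ F₀ n) {a b : ℤ} (ha : a ≠ 0) (h : Prec (a - b * c) a) :
    Red m (F₀ n) (C a) (C (a - b * c)) := by
  refine ⟨C c, hc, b, 0, ?_, ?_, ?_⟩
  · rw [m.degree_C, zero_add, coeff_C, if_pos rfl]
    exact ha
  · rw [m.degree_C, zero_add, coeff_C, if_pos rfl, m.leadingCoeff_C]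
    exact h
  · rw [← C_apply, ← C_mul, ← C_sub]

lemma mem3 : (C 3 : R n) ∈ F₀ n := by simp [F₀]

lemma mem8 : (C 8 : R n) ∈ F₀ n := by simp [F₀]

lemma irred_of (g : R n) (hg : ∀ d, g.coeff d = 0 ∨ g.coeff d = 1) : Irred m (F₀ n) g := by
  rintro h ⟨f, hf, b, u, h1, h2, -⟩
  have h3 : g.coeff (u + m.degree f) = 1 := (hg _).resolve_left h1
  rw [h3] at h2
  have hk : m.leadingCoeff f = 3 ∨ m.leadingCoeff f = 8 := by
    simp only [F₀, Finset.mem_insert, Finset.mem_singleton] at hf
    rcases hf with rfl | rfl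
    · left; exact m.leadingCoeff_C 3
    · right; exact m.leadingCoeff_C 8
  unfold Prec rk at h2
  rcases hk with hk | hk <;> rw [hk] at h2 <;> split_ifs at h2 <;> omega

lemma irred_zero : Irred m (F₀ n) 0 := irred_of m 0 fun d => by simp

lemma irred_one : Irred m (F₀ n) 1 := by
  refine irred_of m 1 fun d => ?_
  rw [MvPolynomial.coeff_one]
  split_ifs <;> simp

lemma reach_five : ReflTransGen (Red m (F₀ n)) (C 5) 0 := by
  have h1 : Red m (F₀ n) (C 5) (C (5 - 1 * 8)) := red_C m mem8 (by norm_num) (by decide)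
  have h2 : Red m (F₀ n) (C (5 - 1 * 8)) (C ((5 - 1 * 8) - (-1) * 3)) :=
    red_C m mem3 (by norm_num) (by decide)
  have h3 := ReflTransGen.tail (ReflTransGen.single h1) h2
  simpa using h3

lemma reach_neg_five : ReflTransGen (Red m (F₀ n)) (C (-5)) 0 := by
  have h1 : Red m (F₀ n) (C (-5)) (C (-5 - (-1) * 8)) := red_C m mem8 (by norm_num) (by decide)
  have h2 : Red m (F₀ n) (C (-5 - (-1) * 8)) (C ((-5 - (-1) * 8) - 1 * 3)) :=
    red_C m mem3 (by norm_num) (by decide)
  have h3 := ReflTransGen.tail (ReflTransGen.single h1) h2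
  simpa using h3

lemma not_groebner : ¬ IsGroebner m (F₀ n) := by
  intro hG
  obtain ⟨h, -, huniq⟩ := hG (C 9)
  have h1 : Red m (F₀ n) (C 9) (C (9 - 3 * 3)) := red_C m mem3 (by norm_num) (by decide)
  have h2 : Red m (F₀ n) (C 9) (C (9 - 1 * 8)) := red_C m mem8 (by norm_num) (by decide)
  have e1 : (C (9 - 3 * 3) : R n) = 0 := by norm_num
  have e2 : (C (9 - 1 * 8) : R n) = 1 := by norm_num
  rw [e1] at h1
  rw [e2] at h2
  have h3 := huniq 0 ⟨ReflTransGen.single h1, irred_zero m⟩
  have h4 := huniq 1 ⟨ReflTransGen.single h2, irred_one m⟩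
  exact zero_ne_one (h3.trans h4.symm)

lemma M_4_3 : M 4 3 = 1 := by
  rw [M, dif_pos (by decide), M, dif_neg (by decide), dif_neg (by decide)]
  norm_num

lemma M_4_8 : M 4 8 = 1 := by
  rw [M, dif_pos (by decide), M, dif_neg (by decide), dif_neg (by decide)]
  norm_num

lemma LCR_3_8 : LCR 3 8 = 4 := by decide

lemma LCR_8_3 : LCR 8 3 = 4 := by decide

lemma spoly_3_8 : spoly m (C 3) (C 8) = C 5 := by
  unfold spoly crit
  rw [m.leadingCoeff_C, m.leadingCoeff_C, m.degree_C, m.degree_C, LCR_3_8, M_4_3, M_4_8]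
  simp only [sup_idem, tsub_self, ← C_apply, ← C_mul, ← C_sub]
  norm_num

lemma spoly_8_3 : spoly m (C 8) (C 3) = C (-5) := by
  unfold spoly crit
  rw [m.leadingCoeff_C, m.leadingCoeff_C, m.degree_C, m.degree_C, LCR_8_3, M_4_3, M_4_8]
  simp only [sup_idem, tsub_self, ← C_apply, ← C_mul, ← C_sub]
  norm_num

end

/-- For every `n` and every admissible term ordering there are a finite set `F` of polynomials and a
normal form algorithm `S` such that Algorithm A' has an output, and no output (for whatever rule for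
choosing the pairs) is a Gröbner basis. -/
theorem result (n : ℕ) (m : MonomialOrder (Fin n)) :
    ∃ (F : Finset (R n)) (S : Finset (R n) → R n → R n), IsNormalFormAlgorithm m S ∧
      (∃ G, Output m S F G) ∧ ∀ G, Output m S F G → ¬ IsGroebner m G := by
  classical
  choose N hN1 hN2 using fun F : Finset (R n) => exists_normal_form m F
  let S : Finset (R n) → R n → R n := fun F g =>
    if F = F₀ n ∧ (g = C 5 ∨ g = C (-5)) then 0 else N F g
  have hne : (C 3 : R n) ≠ C 8 := by
    intro h
    have := C_injective _ _ h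
    norm_num at this
  have hS5 : S (F₀ n) (C 5) = 0 := if_pos ⟨rfl, Or.inl rfl⟩
  have hS5' : S (F₀ n) (C (-5)) = 0 := if_pos ⟨rfl, Or.inr rfl⟩
  have hinit : init (F₀ n) = (F₀ n, {s(C 3, C 8)}) := by
    unfold init
    congr 1
    ext p
    induction p using Sym2.ind with
    | _ a b =>
      simp only [F₀, Finset.mem_filter, Finset.mk_mem_sym2_iff, Finset.mem_insert,
        Finset.mem_singleton, Sym2.mk_isDiag_iff, Sym2.eq_iff]
      constructor
      · rintro ⟨⟨ha | ha, hb | hb⟩, h⟩ <;> subst ha <;> subst hb <;> simp_all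
      · rintro (⟨rfl, rfl⟩ | ⟨rfl, rfl⟩)
        · exact ⟨⟨Or.inl rfl, Or.inr rfl⟩, hne⟩
        · exact ⟨⟨Or.inr rfl, Or.inl rfl⟩, hne.symm⟩
  have hstep : ∀ st, Step m S (init (F₀ n)) st → st = (F₀ n, ∅) := by
    rintro st ⟨f₁, f₂, hf, hst⟩
    rw [hinit] at hf hst
    simp only [Finset.mem_singleton] at hf
    have hzero : S (F₀ n) (spoly m f₁ f₂) = 0 := by
      rw [Sym2.eq_iff] at hf
      rcases hf with ⟨rfl, rfl⟩ | ⟨rfl, rfl⟩
      · rw [spoly_3_8, hS5]
      · rw [spoly_8_3, hS5']
    rcases hst with ⟨-, hst⟩ | ⟨hst, -⟩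
    · rw [hst, hf]
      simp
    · exact absurd hzero hst
  have hout : ∀ st, ReflTransGen (Step m S) (init (F₀ n)) st →
      st = init (F₀ n) ∨ st = (F₀ n, ∅) := by
    intro st hst
    induction hst with
    | refl => left; rfl
    | tail _ h ih =>
      rcases ih with rfl | rfl
      · right; exact hstep _ h
      · obtain ⟨f₁, f₂, hf, -⟩ := h
        simp at hf
  refine ⟨F₀ n, S, ?_, ⟨F₀ n, ?_⟩, ?_⟩
  · intro F g
    by_cases h : F = F₀ n ∧ (g = C 5 ∨ g = C (-5))
    · have : S F g = 0 := if_pos h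
      rw [this]
      obtain ⟨rfl, rfl | rfl⟩ := h
      · exact ⟨reach_five m, irred_zero m⟩
      · exact ⟨reach_neg_five m, irred_zero m⟩
    · have : S F g = N F g := if_neg h
      rw [this]
      exact ⟨hN1 F g, hN2 F g⟩
  · refine ReflTransGen.single ⟨C 3, C 8, ?_, Or.inl ⟨?_, ?_⟩⟩
    · rw [hinit]; simp
    · rw [hinit, spoly_3_8]
      exact hS5
    · rw [hinit]; simp
  · intro G hG
    have h1 : G = F₀ n := by
      rcases hout _ hG with h | h
      · exact (congrArg Prod.fst h).trans rfl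
      · exact congrArg Prod.fst h
    rw [h1]
    exact not_groebner m

end Pool.Agent.Results.MP_698df0_al.SPolynomialVariantFails
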